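import Pool.Agent.Helper15_SIU.Lib3

/-!
# MP_021b97_an, module TRS: algebraic rules and Stokes' theorem for `tri`
-/

set_option autoImplicit false
open MeasureTheory Filter Topology
namespace Pool.Agent.SIU.H9

theorem chi_add (η η' : E7 → Alt 7 8) (x : Fin 4 → ℂ) :
    chi (fun z => η z + η' z) x = chi η x + chi η' x := by
  unfold chi
  rfl

theorem chi_smul (t : ℝ) (η : E7 → Alt 7 8) (x : Fin 4 → ℂ) :
    chi (fun z => t • η z) x = t * chi η x := by
  unfold chi
  rfl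

theorem chi_neg (η : E7 → Alt 7 8) (x : Fin 4 → ℂ) :
    chi (fun z => - η z) x = - chi η x := by
  unfold chi
  rfl

theorem int_congr {η η' : E7 → Alt 7 8} (h : ∀ z ∈ U2', η z = η' z) :
    ∫ x, chi η x = ∫ x, chi η' x := by
  refine integral_congr_ae ?_
  filter_upwards [ae_sig] with x hx
  exact chi_congr (h _ hx)

theorem int_add {η η' : E7 → Alt 7 8} (h : Integrable (chi η)) (h' : Integrable (chi η')) :
    ∫ x, chi (fun z => η z + η' z) x = (∫ x, chi η x) + ∫ x, chi η' x := by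
  rw [← integral_add h h']
  exact integral_congr_ae (Eventually.of_forall fun x => chi_add η η' x)

theorem int_smul (t : ℝ) (η : E7 → Alt 7 8) :
    ∫ x, chi (fun z => t • η z) x = t * ∫ x, chi η x := by
  rw [← integral_const_mul]
  exact integral_congr_ae (Eventually.of_forall fun x => chi_smul t η x)

theorem int_neg (η : E7 → Alt 7 8) :
    ∫ x, chi (fun z => - η z) x = - ∫ x, chi η x := by
  rw [← integral_neg]
  exact integral_congr_ae (Eventually.of_forall fun x => chi_neg η x)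

theorem diffAt {f : E7 → ℝ} (hf : InvFn f) {z : E7} (hz : z ∈ X2.U) : DifferentiableAt ℝ f z :=
  (hf.1.contDiffAt (isOpen_U.mem_nhds hz)).differentiableAt (by simp)

theorem hasFD (b : Bool) {f : E7 → ℝ} (hf : InvFn f) {z : E7} (hz : z ∈ U2') :
    HasFDerivAt (fun w => f (LL b w)) ((fderiv ℝ f (LL b z)).comp ((LL b).restrictScalars ℝ)) z := by
  have h1 := (diffAt hf (LL_mem b hz).1).hasFDerivAt
  have h2 : HasFDerivAt (fun w => LL b w) ((LL b).restrictScalars ℝ) z :=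
    ((LL b).restrictScalars ℝ).hasFDerivAt
  exact h1.comp z h2

theorem fd_LL (b : Bool) {f : E7 → ℝ} (hf : InvFn f) {z : E7} (hz : z ∈ U2') :
    fderiv ℝ (fun w => f (LL b w)) z =
      (fderiv ℝ f (LL b z)).comp ((LL b).restrictScalars ℝ) := (hasFD b hf hz).fderiv

theorem fd_mul (b : Bool) {f f' : E7 → ℝ} (hf : InvFn f) (hf' : InvFn f') {z : E7}
    (hz : z ∈ U2') :
    fderiv ℝ (fun w => (fun u => f u * f' u) (LL b w)) z =
      f (LL b z) • fderiv ℝ (fun w => f' (LL b w)) z +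
        f' (LL b z) • fderiv ℝ (fun w => f (LL b w)) z := by
  have h1 := (hasFD b hf hz).differentiableAt
  have h2 := (hasFD b hf' hz).differentiableAt
  exact fderiv_fun_mul h1 h2

theorem triF_add (b : Bool) (K : E7 → Alt 7 6) (a a' f g : E7 → ℝ) (z : E7) :
    triF b K (fun w => a w + a' w) f g z = triF b K a f g z + triF b K a' f g z := by
  unfold triF
  exact add_smul _ _ _

theorem triF_smul (b : Bool) (K : E7 → Alt 7 6) (t : ℝ) (a f g : E7 → ℝ) (z : E7) :
    triF b K (fun z => t * a z) f g z = t • triF b K a f g z := by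
  unfold triF
  exact mul_smul _ _ _

theorem triF_swap (won : WonStmt) (b : Bool) (K : E7 → Alt 7 6) (a f g : E7 → ℝ) (z : E7) :
    triF b K a g f z = - triF b K a f g z := by
  unfold triF
  have h := (won 7 6).2.2.2.2.1 (fderiv ℝ (fun w => g (LL b w)) z)
    (fderiv ℝ (fun w => f (LL b w)) z) (K z)
  exact (congrArg (fun η : Alt 7 8 => a (LL b z) • η) h).trans (smul_neg _ _)

theorem triF_mul (won : WonStmt) (b : Bool) (K : E7 → Alt 7 6) {a f f' g : E7 → ℝ}
    (hf : InvFn f) (hf' : InvFn f') {z : E7} (hz : z ∈ U2') :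
    triF b K a (fun z => f z * f' z) g z =
      triF b K (fun z => a z * f z) f' g z + triF b K (fun z => a z * f' z) f g z := by
  unfold triF
  rw [fd_mul b hf hf' hz]
  have h1 := (won 7 (6 + 1)).1
  have h2 := (won 7 (6 + 1)).2.2.1
  have e : ∀ η : Alt 7 (6 + 1), w1 (f (LL b z) • fderiv ℝ (fun w => f' (LL b w)) z +
        f' (LL b z) • fderiv ℝ (fun w => f (LL b w)) z) η =
      f (LL b z) • w1 (fderiv ℝ (fun w => f' (LL b w)) z) η +
      f' (LL b z) • w1 (fderiv ℝ (fun w => f (LL b w)) z) η := by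
    intro η
    rw [h1, (h2 _ _ η).1, (h2 _ _ η).1]
  refine (congrArg (fun η : Alt 7 8 => a (LL b z) • η) (e _)).trans ?_
  refine (smul_add _ _ _).trans ?_
  rw [← mul_smul, ← mul_smul]


/-- the `1`-form `h dg` -/
noncomputable def th (h g : E7 → ℝ) (z : E7) : Alt 7 1 := h z • w1 (fderiv ℝ g z) (cst 7 1)

theorem fderiv_inv (bsd : BsdStmt) {f : E7 → ℝ} (hf : InvFn f) :
    (∀ z ∈ X2.U, ∀ c : Fin 3 → ℂ, (∀ j, c j ≠ 0) → ∀ v,
        fderiv ℝ f (X2.act c z) (X2.act c v) = fderiv ℝ f z v) ∧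
      (∀ z ∈ X2.U, ∀ v, X2.Vert z v → fderiv ℝ f z v = 0) :=
  (bsd 7 3 4 X2 X2.U isOpen_U (fun w hw c hc => (act_mem_U hc w).mpr hw)).2.1 f
    (fun z hz => (diffAt hf hz).differentiableWithinAt) hf.2

theorem cst_basic : X2.BasicOn X2.U (fun _ => cst 7 1) :=
  ⟨fun _ _ _ _ _ => rfl, fun _ _ _ i _ => i.elim0⟩

theorem smul_basic {k : ℕ} {h : E7 → ℝ} (hh : InvFn h) {η : E7 → Alt 7 k}
    (hη : X2.BasicOn X2.U η) : X2.BasicOn X2.U (fun z => h z • η z) := by
  refine ⟨fun z hz c hc v => ?_, fun z hz v i hv => ?_⟩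
  · show h _ • η _ _ = h z • η z v
    rw [hh.2 z hz c hc, hη.1 z hz c hc v]
  · show h _ • η _ _ = 0
    rw [hη.2 z hz v i hv, smul_zero]

theorem th_basic (won : WonStmt) (bsd : BsdStmt) {h g : E7 → ℝ} (hh : InvFn h) (hg : InvFn g) :
    X2.BasicOn X2.U (th h g) := by
  have h1 := (won 7 0).2.2.2.2.2.2.2.2 3 4 X2 X2.U (fun z => fderiv ℝ g z) (fun _ => cst 7 1)
    (fderiv_inv bsd hg).1 (fderiv_inv bsd hg).2 cst_basic
  exact smul_basic hh h1

theorem fderiv_smooth {g : E7 → ℝ} (hg : InvFn g) :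
    ContDiffOn ℝ ((⊤ : ℕ∞) : WithTop ℕ∞) (fderiv ℝ g) X2.U :=
  hg.1.fderiv_of_isOpen isOpen_U (by simp)

theorem th_smooth (won : WonStmt) {h g : E7 → ℝ} (hh : InvFn h) (hg : InvFn g) :
    ContDiffOn ℝ ((⊤ : ℕ∞) : WithTop ℕ∞) (th h g) X2.U := by
  have h1 := (won 7 0).2.2.2.2.2.2.1 ((⊤ : ℕ∞) : WithTop ℕ∞)
  have h2 : ContDiffOn ℝ ((⊤ : ℕ∞) : WithTop ℕ∞) (fun z => (fderiv ℝ g z, cst 7 1)) X2.U :=
    (fderiv_smooth hg).prodMk contDiffOn_const
  exact hh.1.smul (h1.comp_contDiffOn h2)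

theorem th_ext (lbz : LbzStmt) {h g : E7 → ℝ} (hh : InvFn h) (hg : InvFn g) (won : WonStmt)
    {z : E7} (hz : z ∈ X2.U) :
    extDeriv (th h g) z = cc2 (fderiv ℝ h z) (fderiv ℝ g z) := by
  have hd : DifferentiableAt ℝ (fun w => w1 (fderiv ℝ g w) (cst 7 1)) z := by
    have h1 := (won 7 0).2.2.2.2.2.2.1 ((⊤ : ℕ∞) : WithTop ℕ∞)
    have h2 : ContDiffOn ℝ ((⊤ : ℕ∞) : WithTop ℕ∞) (fun z => (fderiv ℝ g z, cst 7 1)) X2.U :=
      (fderiv_smooth hg).prodMk contDiffOn_const
    exact ((h1.comp_contDiffOn h2).contDiffAt (isOpen_U.mem_nhds hz)).differentiableAt (by simp)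
  have e1 := lbz.1 7 1 h (fun w => w1 (fderiv ℝ g w) (cst 7 1)) z (diffAt hh hz) hd
  have hg2 : ContDiffAt ℝ 2 g z := (hg.1.contDiffAt (isOpen_U.mem_nhds hz)).of_le
    (show ((2 : ℕ∞) : WithTop ℕ∞) ≤ ((⊤ : ℕ∞) : WithTop ℕ∞) from WithTop.coe_le_coe.mpr le_top)
  have e2 := lbz.2.1 7 0 g (fun _ => cst 7 1) z hg2 (differentiableAt_const _)
  have e3 : extDeriv (fun _ : E7 => cst 7 1) z = 0 := by
    show ContinuousAlternatingMap.alternatizeUncurryFin (fderiv ℝ (fun _ : E7 => cst 7 1) z) = 0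
    rw [fderiv_fun_const]
    refine ContinuousAlternatingMap.ext fun v => ?_
    rw [ContinuousAlternatingMap.alternatizeUncurryFin_apply]
    simp
  have e4 : w1 (fderiv ℝ g z) (0 : Alt 7 1) = 0 := by
    have := ((won 7 1).2.2.1 0 (fderiv ℝ g z) (0 : Alt 7 1)).2
    simpa using this
  rw [e3, e4, neg_zero] at e2
  rw [e2, smul_zero, add_zero] at e1
  exact e1


/-- Stokes' theorem for `d h ∧ d g` -/
theorem stokes (won : WonStmt) (lnk : LnkStmt) (lbz : LbzStmt) (bsd : BsdStmt) (bdf : BdfStmt)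
    (cut : CutStmt) (b : Bool) (K : E7 → Alt 7 6) (hK : Clo K) {h g : E7 → ℝ}
    (hh : InvFn h) (hg : InvFn g) : tri b K (fun _ => 1) h g = 0 := by
  have hb := bdf b 1 (th h g) (th_basic won bsd hh hg)
  have hsm := th_smooth won hh hg
  obtain ⟨C₁, hC₁⟩ := hb.1 hsm.continuousOn
  have hθ := hb.2.1 1 (hsm.of_le (by exact_mod_cast (WithTop.coe_le_coe.mpr
    (le_top : (1 : ℕ∞) ≤ ⊤))))
  have hdiff : DifferentiableOn ℝ (th h g) X2.U := hsm.differentiableOn (by simp)
  have hext := hb.2.2.2 hdiff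
  have hbe : X2.BasicOn X2.U (extDeriv (th h g)) :=
    (bsd 7 3 4 X2 X2.U isOpen_U (fun w hw c hc => (act_mem_U hc w).mpr hw)).1 1 (th h g)
      hdiff (th_basic won bsd hh hg)
  have hce : ContinuousOn (extDeriv (th h g)) X2.U := by
    have h1 := (won 7 0).2.2.2.2.2.2.1 0
    have h2 := (won 7 1).2.2.2.2.2.2.1 0
    have h3 : ContinuousOn (fun z => cc2 (fderiv ℝ h z) (fderiv ℝ g z)) X2.U := by
      have h4 : ContinuousOn (fun z => w1 (fderiv ℝ g z) (cst 7 1)) X2.U :=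
        h1.continuous.comp_continuousOn
          ((fderiv_smooth hg).continuousOn.prodMk continuousOn_const)
      exact h2.continuous.comp_continuousOn ((fderiv_smooth hh).continuousOn.prodMk h4)
    exact h3.congr fun z hz => th_ext lbz hh hg won hz
  obtain ⟨C₂, hC₂⟩ := (bdf b 2 (extDeriv (th h g)) hbe).1 hce
  have hcut := cut K (lp (LL b) (th h g)) (max C₁ C₂) hK hθ hb.2.2.1 ?_ ?_
  · rw [← hcut]
    refine int_congr fun z hz => ?_
    show (1 : ℝ) • _ = _
    rw [one_smul, hext z hz, fd_LL b hh hz, fd_LL b hg hz]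
    have hz' := LL_mem b hz
    unfold lp
    rw [th_ext lbz hh hg won hz'.1]
    have e1 : (cc2 (fderiv ℝ h (LL b z)) (fderiv ℝ g (LL b z))).compContinuousLinearMap
        ((LL b).restrictScalars ℝ) =
        cc2 ((fderiv ℝ h (LL b z)).comp ((LL b).restrictScalars ℝ))
          ((fderiv ℝ g (LL b z)).comp ((LL b).restrictScalars ℝ)) := by
      have n1 := (won 7 1).2.2.2.1 7 ((LL b).restrictScalars ℝ) (fderiv ℝ h (LL b z))
        (w1 (fderiv ℝ g (LL b z)) (cst 7 1))
      have n2 := (won 7 0).2.2.2.1 7 ((LL b).restrictScalars ℝ) (fderiv ℝ g (LL b z)) (cst 7 1)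
      exact n1.trans (congrArg _ n2)
    rw [e1]
    exact (lnk.1 7 6 (by decide) (K z) _ _).symm
  · intro z hz
    refine (hC₁ z hz).trans ?_
    rw [pow_one]
    exact mul_le_mul_of_nonneg_right (le_max_left _ _) (inv_nonneg.mpr (Real.sqrt_nonneg _))
  · intro z hz
    rw [hext z hz.2]
    refine (hC₂ z hz).trans ?_
    rw [inv_pow, Real.sq_sqrt (BB_nonneg z)]
    exact mul_le_mul_of_nonneg_right (le_max_right _ _) (inv_nonneg.mpr (BB_nonneg z))

theorem trs (_ : WdgStmt) (won : WonStmt) (lnk : LnkStmt) (lbz : LbzStmt) (bsd : BsdStmt)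
    (bdf : BdfStmt) (lin : LinStmt) (cut : CutStmt) : TrsStmt := by
  intro b K hK a a' f f' g ha ha' hf hf' hg
  have hI : ∀ a f g : E7 → ℝ, InvFn a → InvFn f → InvFn g →
      Integrable (chi (triF b K a f g)) := fun a f g ha hf hg =>
    ((lin b K hK.1.continuousOn hK.2.1).2 a f g ha hf hg).2.2.2
  have mul_one' : ∀ h : E7 → ℝ, (fun z => (fun _ => (1 : ℝ)) z * h z) = h := fun h => by
    funext z; exact one_mul _
  have hmul : ∀ a f f' g : E7 → ℝ, InvFn a → InvFn f → InvFn f' → InvFn g →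
      tri b K a (fun z => f z * f' z) g =
      tri b K (fun z => a z * f z) f' g + tri b K (fun z => a z * f' z) f g := by
    intro a f f' g ha hf hf' hg
    unfold tri
    rw [← int_add (hI _ _ _ (ha.mul hf) hf' hg) (hI _ _ _ (ha.mul hf') hf hg)]
    exact int_congr fun z hz => triF_mul won b K hf hf' hz
  refine ⟨?_, ?_, ?_, ?_, ?_⟩
  · unfold tri
    rw [← int_add (hI _ _ _ ha hf hg) (hI _ _ _ ha' hf hg)]
    exact int_congr fun z _ => triF_add b K a a' f g z
  · intro t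
    unfold tri
    rw [← int_smul]
    exact int_congr fun z _ => triF_smul b K t a f g z
  · unfold tri
    rw [← int_neg]
    exact int_congr fun z _ => triF_swap won b K a f g z
  · have h1 := stokes won lnk lbz bsd bdf cut b K hK (ha.mul hf) hg
    have h2 := hmul (fun _ => 1) a f g (InvFn.const 1) ha hf hg
    rw [h1] at h2
    have e1 := mul_one' a
    have e2 := mul_one' f
    rw [e1, e2] at h2
    linarith
  · exact hmul a f f' g ha hf hf' hg

end Pool.Agent.SIU.H9
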